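import Pool.Agent.GT.StmtsC

/-!
# Squad GT, row C_MAJ: the majorant
-/

set_option autoImplicit false

open Finset

namespace Pool.Agent.GT.H1

noncomputable section

/-- properties of the primes in `PP W R` -/
theorem pp_prop {M w K R : ℕ} {p : ℕ} (hp : p ∈ PP (M * (w + K + 1).factorial) R) :
    p.Prime ∧ p < R ∧ w < p ∧ K < p ∧ ¬ p ∣ M * (w + K + 1).factorial := by
  unfold PP at hp
  obtain ⟨h1, h2, h3⟩ := Finset.mem_filter.1 hp
  have h4 : w + K + 1 < p := by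
    by_contra hcon
    push Not at hcon
    exact h3 (((Nat.Prime.dvd_factorial h2).2 hcon).mul_left M)
  exact ⟨h2, Finset.mem_range.1 h1, by omega, by omega, h3⟩

/-- the sum of the constant function on the good set -/
theorem sum_ind {N : ℕ} [NeZero N] (p : ℕ → Prop) [DecidablePred p] (G : ℝ) (hG : 0 ≤ G) (m : ℕ)
    (h : ∀ n, p n → n < N) :
    G * (((Finset.range m).filter p).card : ℝ) ≤ ∑ x : ZMod N, (if p x.val then G else 0) := by
  rw [← sum_filter, sum_const, nsmul_eq_mul, mul_comm]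
  apply mul_le_mul_of_nonneg_right _ hG
  norm_cast
  apply Finset.card_le_card_of_injOn (fun n : ℕ => ((n : ℕ) : ZMod N))
  · intro n hn
    have hn := (Finset.mem_filter.1 (Finset.mem_coe.1 hn)).2
    apply Finset.mem_coe.2
    refine Finset.mem_filter.2 ⟨Finset.mem_univ _, ?_⟩
    rw [ZMod.val_natCast, Nat.mod_eq_of_lt (h n hn)]
    exact hn
  · intro n hn n' hn' hnn
    have hn := h n (Finset.mem_filter.1 (Finset.mem_coe.1 hn)).2
    have hn' := h n' (Finset.mem_filter.1 (Finset.mem_coe.1 hn')).2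
    have h1 : ((n : ZMod N)).val = ((n' : ZMod N)).val := congrArg ZMod.val hnn
    rwa [ZMod.val_natCast, ZMod.val_natCast, Nat.mod_eq_of_lt hn, Nat.mod_eq_of_lt hn'] at h1

/-- the linear forms condition -/
theorem lf_nu (hLfg : LfgStmt) (hSys : SysStmt) (K : ℕ) (hK : 3 ≤ K)
    (W b R N : ℕ) [NeZero N] (P : Finset ℕ) (ε : ℝ) (hε : 0 < ε)
    (hP : ∀ p ∈ P, p.Prime ∧ K < p ∧ ¬ p ∣ W)
    (hPe : ∏ p ∈ P, (1 + (40 : ℝ) ^ (K * 2 ^ K) / (p : ℝ) ^ 2) - 1 ≤ ε / 2) (hR2 : 2 ≤ R)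
    (hR : 16 * ((K * 2 ^ K : ℕ) : ℝ) * (K : ℝ) ^ 2 / ε ≤ R)
    (hRN : R ^ (5 * (K * 2 ^ K) + K + 1) ≤ N) :
    LF K (nu P R W b : ZMod N → ℝ) ε := by
  intro S hS
  obtain ⟨hgood, hsum⟩ := hSys K N S (nu P R W b) hK hS
  have h1 := hLfg (↥S) (Fin K × Bool) K (fun (q : ↥S) (v : Fin K × Bool) => co q.1 v) W b P R N
    hgood hP hR2
  rw [← hsum] at h1
  have hι : Fintype.card (Fin K × Bool) = 2 * K := by
    rw [Fintype.card_prod, Fintype.card_fin, Fintype.card_bool, mul_comm]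
  have hσ : Fintype.card ↥S = S.card := Fintype.card_coe S
  rw [hι, hσ] at h1
  refine h1.trans ?_
  have hm : S.card ≤ K * 2 ^ K := by
    refine (Finset.card_le_univ S).trans (le_of_eq ?_)
    rw [Fintype.card_prod, Fintype.card_fun, Fintype.card_fin, Fintype.card_bool]
  obtain ⟨m₀, hm₀⟩ : ∃ m₀ : ℕ, m₀ = K * 2 ^ K := ⟨_, rfl⟩
  rw [← hm₀] at hPe hR hRN hm
  have hR1 : (1 : ℝ) ≤ R := by exact_mod_cast (by omega : 1 ≤ R)
  have hR0 : (0 : ℝ) < R := by linarith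
  have hN0 : (0 : ℝ) < N := by exact_mod_cast Nat.pos_of_ne_zero (NeZero.ne N)
  have e1 : ∏ p ∈ P, (1 + (40 : ℝ) ^ S.card / (p : ℝ) ^ 2) ≤
      ∏ p ∈ P, (1 + (40 : ℝ) ^ m₀ / (p : ℝ) ^ 2) := by
    apply prod_le_prod
    · intro p _
      positivity
    · intro p _
      have : (40 : ℝ) ^ S.card ≤ (40 : ℝ) ^ m₀ := pow_le_pow_right₀ (by norm_num) hm
      have h2 : (40 : ℝ) ^ S.card / (p : ℝ) ^ 2 ≤ (40 : ℝ) ^ m₀ / (p : ℝ) ^ 2 :=
        div_le_div_of_nonneg_right this (by positivity)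
      linarith
  have e2 : 4 * (S.card : ℝ) * (K : ℝ) * ((2 * K : ℕ) : ℝ) * (R : ℝ) ^ (5 * S.card) / N ≤ ε / 2 := by
    have h2 : (S.card : ℝ) ≤ m₀ := by exact_mod_cast hm
    have h3 : (R : ℝ) ^ (5 * S.card) ≤ (R : ℝ) ^ (5 * m₀) :=
      pow_le_pow_right₀ hR1 (by omega)
    have h4 : (R : ℝ) ^ (5 * m₀) * R ≤ N := by
      have h5 : R ^ (5 * m₀ + 1) ≤ N := (Nat.pow_le_pow_right (by omega) (by omega)).trans hRN
      rw [← pow_succ]
      exact_mod_cast h5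
    rw [div_le_iff₀ hN0]
    push_cast
    have h6 : 4 * (S.card : ℝ) * (K : ℝ) * (2 * (K : ℝ)) * (R : ℝ) ^ (5 * S.card) ≤
        8 * (m₀ : ℝ) * (K : ℝ) ^ 2 * (R : ℝ) ^ (5 * m₀) := by
      calc 4 * (S.card : ℝ) * (K : ℝ) * (2 * (K : ℝ)) * (R : ℝ) ^ (5 * S.card) =
          8 * (K : ℝ) ^ 2 * ((S.card : ℝ) * (R : ℝ) ^ (5 * S.card)) := by ring
        _ ≤ 8 * (K : ℝ) ^ 2 * ((m₀ : ℝ) * (R : ℝ) ^ (5 * m₀)) :=
            mul_le_mul_of_nonneg_left (mul_le_mul h2 h3 (by positivity) (by positivity))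
              (by positivity)
        _ = _ := by ring
    refine h6.trans ?_
    have h7 : 16 * (m₀ : ℝ) * (K : ℝ) ^ 2 ≤ ε * R := by
      rw [div_le_iff₀ hε] at hR
      linarith
    have h8 : (0 : ℝ) ≤ (R : ℝ) ^ (5 * m₀) := by positivity
    calc 8 * (m₀ : ℝ) * (K : ℝ) ^ 2 * (R : ℝ) ^ (5 * m₀) =
        (16 * (m₀ : ℝ) * (K : ℝ) ^ 2) * (R : ℝ) ^ (5 * m₀) / 2 := by ring
      _ ≤ (ε * R) * (R : ℝ) ^ (5 * m₀) / 2 := by
          have := mul_le_mul_of_nonneg_right h7 h8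
          linarith
      _ = ε / 2 * ((R : ℝ) ^ (5 * m₀) * R) := by ring
      _ ≤ ε / 2 * N := mul_le_mul_of_nonneg_left h4 (by linarith)
  linarith

theorem c_maj (hLvc : LvcStmt) (hGlb : GlbStmt) (hTds : TdsStmt) (hEps : EpsStmt)
    (hLfg : LfgStmt) (hSys : SysStmt) (hPig : PigStmt) (hWin : WinStmt) : MajRowStmt := by
  intro K M b hK hM hb
  obtain ⟨c, hc, hpig⟩ := hPig M b hM hb
  obtain ⟨m₀, hm₀⟩ : ∃ m₀ : ℕ, m₀ = K * 2 ^ K := ⟨_, rfl⟩
  obtain ⟨B₀, hB₀⟩ : ∃ B₀ : ℕ, B₀ = 5 * m₀ + K + 1 := ⟨_, rfl⟩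
  have hB₀pos : (0 : ℝ) < B₀ := by exact_mod_cast (by omega : 0 < B₀)
  refine ⟨c / (16 * B₀), by positivity, fun ε n₀ hε => ?_⟩
  obtain ⟨w, hw⟩ := hEps ((40 : ℝ) ^ m₀) (ε / 2) (by positivity) (by linarith)
  obtain ⟨W, hW⟩ : ∃ W : ℕ, W = M * (w + K + 1).factorial := ⟨_, rfl⟩
  have hW0 : 0 < W := by
    rw [hW]
    exact Nat.mul_pos hM (Nat.factorial_pos _)
  obtain ⟨n₁, hn₁⟩ : ∃ n₁ : ℕ, n₁ = max n₀ (⌈16 * (m₀ : ℝ) * (K : ℝ) ^ 2 / ε⌉₊ + ⌈1 / ε⌉₊) :=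
    ⟨_, rfl⟩
  obtain ⟨X₀, hX₀⟩ := hWin K B₀ W n₁ (by omega) hW0
  obtain ⟨X, b', hXX, hX2, hb'W, hb'b, hcard⟩ := hpig W X₀ hW0 (by rw [hW]; exact Dvd.intro _ rfl)
  obtain ⟨N, R, hN0, hNc, hN1, hR1, hR2, hRN, hRX, hlog, hNX, hin⟩ := hX₀ X b' hXX hb'W
  haveI : NeZero N := ⟨hN0.ne'⟩
  have hn₀ : n₀ ≤ n₁ := by rw [hn₁]; exact le_max_left _ _
  have hR1' : (⌈16 * (m₀ : ℝ) * (K : ℝ) ^ 2 / ε⌉₊ + ⌈1 / ε⌉₊) ≤ R :=
    (by rw [hn₁]; exact le_max_right _ _ : _ ≤ n₁).trans hR1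
  have hRa : 16 * (m₀ : ℝ) * (K : ℝ) ^ 2 / ε ≤ R := by
    refine (Nat.le_ceil _).trans ?_
    exact_mod_cast (Nat.le_add_right _ _).trans hR1'
  have hRb : 1 / ε ≤ R := by
    refine (Nat.le_ceil _).trans ?_
    exact_mod_cast (Nat.le_add_left _ _).trans hR1'
  obtain ⟨P, hP⟩ : ∃ P : Finset ℕ, P = PP W R := ⟨_, rfl⟩
  have hPprop : ∀ p ∈ P, p.Prime ∧ p < R ∧ w < p ∧ K < p ∧ ¬ p ∣ W := by
    intro p hp
    rw [hP, hW] at hp
    rw [hW]
    exact pp_prop hp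
  obtain ⟨-, hG1, hGR⟩ := hLvc P R (fun p hp => (hPprop p hp).1) hR2
  obtain ⟨G, hG⟩ : ∃ G : ℝ, G = GG P R := ⟨_, rfl⟩
  rw [← hG] at hG1 hGR
  have hG0 : 0 ≤ G := by linarith
  have hgl := hGlb W R hW0 hR2
  rw [← hP, ← hG] at hgl
  have hNR : (0 : ℝ) < N := by exact_mod_cast hN0
  have hWR : (0 : ℝ) < W := by exact_mod_cast hW0
  have hR1R : (1 : ℝ) < R := by exact_mod_cast (by omega : 1 < R)
  have hlogR : 0 < Real.log R := Real.log_pos hR1R
  have hlogX : 0 < Real.log X := Real.log_pos (by exact_mod_cast (by omega : 1 < X))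
  have hXR : (0 : ℝ) < X := by exact_mod_cast (by omega : 0 < X)
  have hφ : (0 : ℝ) < W.totient := by exact_mod_cast Nat.totient_pos.2 hW0
  refine ⟨N, W, b', inferInstance, nu P R W b', fun x : ZMod N =>
    if (W * x.val + b').Prime ∧ X < W * x.val + b' ∧ W * x.val + b' ≤ 2 * X then G else 0,
    hNc, hn₀.trans hN1, hW0, ?_, hb'b, ?_, ?_, ?_, ?_, ?_, ?_⟩
  · rw [hW]
    exact Dvd.intro _ rfl
  · apply lf_nu hLfg hSys K hK W b' R N P ε hε
    · intro p hp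
      obtain ⟨h1, -, -, h4, h5⟩ := hPprop p hp
      exact ⟨h1, h4, h5⟩
    · rw [← hm₀]
      exact hw P fun p hp => (hPprop p hp).2.2.1
    · exact hR2
    · rw [← hm₀]
      exact hRa
    · rw [← hm₀, ← hB₀]
      exact hRN
  · intro x
    dsimp only
    split_ifs
    · exact hG0
    · exact le_rfl
  · intro x
    dsimp only
    unfold nu
    rw [← hG]
    split_ifs with h
    · have h1 : tds P R (W * x.val + b') = 1 := by
        apply hTds P R _ hR2 (fun p hp => ⟨(hPprop p hp).1, (hPprop p hp).2.1⟩) h.1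
        omega
      rw [h1]
      linarith
    · exact mul_nonneg hG0 (sq_nonneg _)
  · -- density
    have h1 := sum_ind (N := N)
      (fun n => (W * n + b').Prime ∧ X < W * n + b' ∧ W * n + b' ≤ 2 * X) G hG0 (2 * X + 1)
      (fun n hn => by
        have := (hin n hn.2.1 hn.2.2).2
        omega)
    refine le_trans ?_ h1
    have h2 : (W.totient : ℝ) / W * Real.log R * (c * X / (W.totient * Real.log X)) ≤
        G * (((Finset.range (2 * X + 1)).filter fun n =>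
      (W * n + b').Prime ∧ X < W * n + b' ∧ W * n + b' ≤ 2 * X).card : ℝ) :=
      mul_le_mul hgl hcard (by positivity) hG0
    refine le_trans ?_ h2
    have h3 : (W.totient : ℝ) / W * Real.log R * (c * X / (W.totient * Real.log X)) =
        c * (X / W) * (Real.log R / Real.log X) := by
      field_simp
    rw [h3]
    have h4 : 1 / (4 * (B₀ : ℝ)) ≤ Real.log R / Real.log X := by
      rw [div_le_div_iff₀ (by positivity) hlogX]
      linarith
    have h5 : (N : ℝ) / 4 ≤ X / W := by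
      have : 4 * (X : ℝ) / W = 4 * (X / W) := by ring
      rw [this] at hNX
      linarith
    calc c / (16 * (B₀ : ℝ)) * N = c * (N / 4) * (1 / (4 * (B₀ : ℝ))) := by
          field_simp
          ring
      _ ≤ c * (X / W) * (Real.log R / Real.log X) :=
          mul_le_mul (mul_le_mul_of_nonneg_left h5 hc.le) h4 (by positivity) (by positivity)
  · intro x hx
    dsimp only at hx
    split_ifs at hx with h
    · obtain ⟨h1, h2⟩ := hin x.val h.2.1 h.2.2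
      exact ⟨h1, h2, h.1⟩
    · exact absurd rfl hx
  · -- the progressions with difference 0
    have h1 : ∀ x : ZMod N, (if (W * x.val + b').Prime ∧ X < W * x.val + b' ∧
        W * x.val + b' ≤ 2 * X then G else 0) ^ K ≤ (R : ℝ) ^ K := by
      intro x
      split_ifs
      · exact pow_le_pow_left₀ hG0 hGR K
      · rw [zero_pow (by omega)]
        positivity
    refine (sum_le_sum fun x _ => h1 x).trans ?_
    rw [sum_const, card_univ, ZMod.card, nsmul_eq_mul]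
    have h2 : (R : ℝ) ^ K * R ≤ N := by
      have h3 : R ^ (K + 1) ≤ N := (Nat.pow_le_pow_right (by omega) (by omega)).trans hRN
      rw [← pow_succ]
      exact_mod_cast h3
    have h4 : 1 ≤ ε * R := by
      rw [div_le_iff₀ hε] at hRb
      linarith
    have h5 : (0 : ℝ) ≤ (R : ℝ) ^ K := by positivity
    have h6 : (R : ℝ) ^ K ≤ ε * N := by
      calc (R : ℝ) ^ K = (R : ℝ) ^ K * 1 := (mul_one _).symm
        _ ≤ (R : ℝ) ^ K * (ε * R) := mul_le_mul_of_nonneg_left h4 h5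
        _ = ε * ((R : ℝ) ^ K * R) := by ring
        _ ≤ ε * N := mul_le_mul_of_nonneg_left h2 hε.le
    calc (N : ℝ) * (R : ℝ) ^ K ≤ N * (ε * N) := mul_le_mul_of_nonneg_left h6 hNR.le
      _ = ε * (N : ℝ) ^ 2 := by ring

end

end Pool.Agent.GT.H1
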