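import Pool.Agent.GT.StmtsC

/-!
# Squad GT, row C_PIG: pigeonhole in the classes mod `W`
-/

set_option autoImplicit false

open Finset

namespace Pool.Agent.GT.H1

noncomputable section

theorem c_pig (hPri : PriStmt) : PigStmt := by
  intro M b hM hb
  obtain ⟨c, hc, h⟩ := hPri M b hM hb
  refine ⟨c, hc, fun W X₀ hW hMW => ?_⟩
  obtain ⟨X, hX, hX2, hcard⟩ := h (max X₀ W)
  have hX0 : X₀ ≤ X := (le_max_left _ _).trans hX
  have hXW : W ≤ X := (le_max_right _ _).trans hX
  obtain ⟨S, hS⟩ : ∃ S : Finset ℕ, S =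
      (Finset.Ioc X (2 * X)).filter fun p => p.Prime ∧ p % M = b % M := ⟨_, rfl⟩
  rw [← hS] at hcard
  obtain ⟨B, hB⟩ : ∃ B : Finset ℕ, B = (Finset.range W).filter fun a => W.Coprime a := ⟨_, rfl⟩
  have hBcard : B.card = W.totient := by
    rw [hB, Nat.totient]
  have hmap : ∀ p ∈ S, p % W ∈ B := by
    intro p hp
    rw [hS] at hp
    obtain ⟨hp1, hp2, -⟩ := Finset.mem_filter.1 hp
    have hp3 := (Finset.mem_Ioc.1 hp1).1
    rw [hB]
    refine Finset.mem_filter.2 ⟨Finset.mem_range.2 (Nat.mod_lt _ hW), ?_⟩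
    have h1 : W.Coprime p := by
      apply Nat.Coprime.symm
      rw [Nat.Prime.coprime_iff_not_dvd hp2]
      intro h2
      have := Nat.le_of_dvd hW h2
      omega
    unfold Nat.Coprime at h1 ⊢
    rw [Nat.gcd_comm, ← Nat.gcd_rec, h1]
  have hφ : 0 < W.totient := Nat.totient_pos.2 hW
  have hBne : B.Nonempty := by
    rw [← Finset.card_pos, hBcard]
    exact hφ
  have hφR : (0 : ℝ) < W.totient := by exact_mod_cast hφ
  obtain ⟨b', hb', hfib⟩ := Finset.exists_le_card_fiber_of_nsmul_le_card_of_maps_to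
    (s := S) (t := B) (f := fun p => p % W) (b := (S.card : ℝ) / W.totient) hmap hBne (by
      rw [hBcard, nsmul_eq_mul]
      apply le_of_eq
      field_simp)
  have hlog : 0 < Real.log X := Real.log_pos (by exact_mod_cast (by omega : 1 < X))
  have hXpos : (0 : ℝ) < X := by exact_mod_cast (by omega : 0 < X)
  have hSpos : (0 : ℝ) < S.card := lt_of_lt_of_le (by positivity) hcard
  have hfpos : (0 : ℝ) < ((S.filter fun p => p % W = b').card : ℝ) :=
    lt_of_lt_of_le (by positivity) hfib
  have hne : (S.filter fun p => p % W = b').Nonempty := by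
    rw [← Finset.card_pos]
    exact_mod_cast hfpos
  have hb'W : b' < W := by
    rw [hB] at hb'
    exact Finset.mem_range.1 (Finset.mem_filter.1 hb').1
  refine ⟨X, b', hX0, hX2, hb'W, ?_, ?_⟩
  · obtain ⟨p, hp⟩ := hne
    obtain ⟨hp1, hp2⟩ := Finset.mem_filter.1 hp
    rw [hS] at hp1
    obtain ⟨-, -, hp3⟩ := Finset.mem_filter.1 hp1
    have h1 : p % W ≡ p [MOD M] := (Nat.mod_modEq p W).of_dvd hMW
    rw [hp2] at h1
    exact h1.trans hp3
  · have h1 : ((S.filter fun p => p % W = b').card : ℝ) ≤ (((Finset.range (2 * X + 1)).filter fun n =>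
        (W * n + b').Prime ∧ X < W * n + b' ∧ W * n + b' ≤ 2 * X).card : ℝ) := by
      norm_cast
      apply Finset.card_le_card_of_injOn (fun p => p / W)
      · intro p hp
        have hp := Finset.mem_coe.1 hp
        obtain ⟨hp1, hp2⟩ := Finset.mem_filter.1 hp
        rw [hS] at hp1
        obtain ⟨hp3, hp4, -⟩ := Finset.mem_filter.1 hp1
        obtain ⟨hp5, hp6⟩ := Finset.mem_Ioc.1 hp3
        have h2 : W * (p / W) + b' = p := by
          rw [← hp2]
          exact Nat.div_add_mod p W
        apply Finset.mem_coe.2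
        refine Finset.mem_filter.2 ⟨Finset.mem_range.2 ?_, ?_⟩
        · have : p / W ≤ p := Nat.div_le_self _ _
          change p / W < 2 * X + 1
          omega
        · change (W * (p / W) + b').Prime ∧ X < W * (p / W) + b' ∧ W * (p / W) + b' ≤ 2 * X
          rw [h2]
          exact ⟨hp4, hp5, hp6⟩
      · intro p hp q hq hpq
        have hp := (Finset.mem_filter.1 (Finset.mem_coe.1 hp)).2
        have hq := (Finset.mem_filter.1 (Finset.mem_coe.1 hq)).2
        have hpq' : p / W = q / W := hpq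
        rw [← Nat.div_add_mod p W, ← Nat.div_add_mod q W, hp, hq, hpq']
    refine le_trans ?_ h1
    refine le_trans ?_ hfib
    rw [mul_comm (W.totient : ℝ), ← div_div]
    exact div_le_div_of_nonneg_right hcard hφR.le

end

end Pool.Agent.GT.H1
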