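import Pool.Agent.GT.StmtsC

/-!
# Squad GT, row C_TRA: expansion and translation
-/

set_option autoImplicit false

open Finset

namespace Pool.Agent.GT.H1

noncomputable section

theorem nn_dvd {a : Finset ℕ} (ha : ∀ p ∈ a, p.Prime) (n : ℕ) : nn a ∣ n ↔ ∀ p ∈ a, p ∣ n := by
  unfold nn
  constructor
  · intro h p hp
    exact (dvd_prod_of_mem _ hp).trans h
  · intro h
    apply Finset.prod_primes_dvd
    · intro p hp
      exact (ha p hp).prime
    · exact h

theorem nn_union_dvd {a c : Finset ℕ} (ha : ∀ p ∈ a, p.Prime) (hc : ∀ p ∈ c, p.Prime) (n : ℕ) :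
    nn (a ∪ c) ∣ n ↔ nn a ∣ n ∧ nn c ∣ n := by
  rw [nn_dvd ha, nn_dvd hc, nn_dvd]
  · constructor
    · intro h
      exact ⟨fun p hp => h p (mem_union_left _ hp), fun p hp => h p (mem_union_right _ hp)⟩
    · rintro ⟨h1, h2⟩ p hp
      rcases mem_union.1 hp with h | h
      · exact h1 p h
      · exact h2 p h
  · intro p hp
    rcases mem_union.1 hp with h | h
    · exact ha p h
    · exact hc p h

/-- the square of the divisor sum -/
theorem tds_sq {P : Finset ℕ} (hP : ∀ p ∈ P, p.Prime) (R n : ℕ) :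
    tds P R n ^ 2 = ∑ a ∈ P.powerset, ∑ c ∈ P.powerset,
      (lam P R a * lam P R c) * (if nn (a ∪ c) ∣ n then (1 : ℝ) else 0) := by
  unfold tds
  rw [sum_filter, sq, sum_mul_sum]
  refine sum_congr rfl fun a ha => sum_congr rfl fun c hc => ?_
  have ha' : ∀ p ∈ a, p.Prime := fun p hp => hP p (Finset.mem_powerset.1 ha hp)
  have hc' : ∀ p ∈ c, p.Prime := fun p hp => hP p (Finset.mem_powerset.1 hc hp)
  by_cases h1 : nn a ∣ n
  · by_cases h2 : nn c ∣ n
    · rw [if_pos h1, if_pos h2, if_pos ((nn_union_dvd ha' hc' n).2 ⟨h1, h2⟩), mul_one]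
    · rw [if_neg h2, if_neg (fun h => h2 ((nn_union_dvd ha' hc' n).1 h).2), mul_zero, mul_zero]
  · rw [if_neg h1, if_neg (fun h => h1 ((nn_union_dvd ha' hc' n).1 h).1), mul_zero, zero_mul]

/-- the indicator of all the divisibilities -/
def FF {σ ι : Type} [Fintype σ] [Fintype ι] [DecidableEq ι] (L : σ → ι → ℤ) (W b : ℕ)
    (A C : σ → Finset ℕ) {N : ℕ} (z : ι → ZMod N) : ℝ :=
  if ∀ s, nn (A s ∪ C s) ∣ W * (ev L s z).val + b then 1 else 0

theorem prod_ind {σ : Type} [Fintype σ] [DecidableEq σ] (p : σ → Prop) [DecidablePred p]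
    [Decidable (∀ s, p s)] :
    ∏ s, (if p s then (1 : ℝ) else 0) = if ∀ s, p s then 1 else 0 := by
  by_cases h : ∀ s, p s
  · rw [if_pos h]
    exact prod_eq_one fun s _ => if_pos (h s)
  · rw [if_neg h]
    push Not at h
    obtain ⟨s, hs⟩ := h
    exact prod_eq_zero (mem_univ s) (if_neg hs)

theorem expand {σ ι : Type} [Fintype σ] [Fintype ι] [DecidableEq σ] [DecidableEq ι]
    (L : σ → ι → ℤ) (W b : ℕ) (P : Finset ℕ) (R N : ℕ) (hP : ∀ p ∈ P, p.Prime)
    (z : ι → ZMod N) :
    ∏ s, nu P R W b (ev L s z) = brk P R (fun A C : σ → Finset ℕ => FF L W b A C z) := by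
  unfold nu brk
  rw [prod_mul_distrib, prod_const, card_univ]
  congr 1
  simp only [tds_sq hP]
  rw [prod_univ_sum]
  refine sum_congr rfl fun A _ => ?_
  rw [prod_univ_sum]
  refine sum_congr rfl fun C _ => ?_
  rw [prod_mul_distrib, prod_ind]
  rfl

theorem sum_avb {σ ι : Type} [Fintype σ] [Fintype ι] [DecidableEq σ] [DecidableEq ι]
    (L : σ → ι → ℤ) (W b : ℕ) (N : ℕ) [NeZero N] (A C : σ → Finset ℕ) (hD : 0 < DD A C) :
    ∑ z : ι → ZMod N, avb L W b A C z = ∑ z : ι → ZMod N, FF L W b A C z := by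
  have h1 : ∀ z : ι → ZMod N, avb L W b A C z =
      (∑ h : ι → Fin (DD A C), FF L W b A C (fun i => z i + ((h i : ℕ) : ZMod N))) /
        (DD A C : ℝ) ^ Fintype.card ι := by
    intro z
    unfold avb FF
    rw [card_filter]
    push_cast
    rfl
  simp only [h1]
  rw [← sum_div, sum_comm]
  have h2 : ∀ h : ι → Fin (DD A C), ∑ z : ι → ZMod N,
      FF L W b A C (fun i => z i + ((h i : ℕ) : ZMod N)) = ∑ z : ι → ZMod N, FF L W b A C z := by
    intro h
    exact Equiv.sum_comp (Equiv.addRight (fun i => ((h i : ℕ) : ZMod N)))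
      (fun z : ι → ZMod N => FF L W b A C z)
  simp only [h2]
  rw [sum_const, card_univ, nsmul_eq_mul]
  have h3 : ((Fintype.card (ι → Fin (DD A C)) : ℕ) : ℝ) = (DD A C : ℝ) ^ Fintype.card ι := by
    rw [Fintype.card_fun, Fintype.card_fin]
    push_cast
    rfl
  rw [h3]
  have h4 : (DD A C : ℝ) ^ Fintype.card ι ≠ 0 := pow_ne_zero _ (by exact_mod_cast hD.ne')
  field_simp

theorem c_tra : TraStmt := by
  intro σ ι _ _ _ _ L W b P R N _ hP
  have h1 : ∀ X : (σ → Finset ℕ) → (σ → Finset ℕ) → (ι → ZMod N) → ℝ,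
      ∑ z : ι → ZMod N, brk P R (fun A C : σ → Finset ℕ => X A C z) =
        brk P R (fun A C : σ → Finset ℕ => ∑ z : ι → ZMod N, X A C z) := by
    intro X
    unfold brk
    rw [← mul_sum]
    congr 1
    rw [sum_comm]
    refine sum_congr rfl fun A _ => ?_
    rw [sum_comm]
    refine sum_congr rfl fun C _ => ?_
    rw [mul_sum]
  calc ∑ z : ι → ZMod N, ∏ s, nu P R W b (ev L s z) =
      ∑ z : ι → ZMod N, brk P R (fun A C : σ → Finset ℕ => FF L W b A C z) :=
        sum_congr rfl fun z _ => expand L W b P R N hP z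
    _ = brk P R (fun A C : σ → Finset ℕ => ∑ z : ι → ZMod N, FF L W b A C z) :=
        h1 (fun A C z => FF L W b A C z)
    _ = brk P R (fun A C : σ → Finset ℕ => ∑ z : ι → ZMod N, avb L W b A C z) := by
        unfold brk
        congr 1
        refine sum_congr rfl fun A hA => sum_congr rfl fun C hC => ?_
        congr 1
        change ∑ z : ι → ZMod N, FF L W b A C z = ∑ z : ι → ZMod N, avb L W b A C z
        rw [sum_avb]
        unfold DD nn
        apply prod_pos
        intro p hp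
        obtain ⟨s, -, hs⟩ := Finset.mem_biUnion.1 hp
        have h2 : p ∈ P := by
          rcases mem_union.1 hs with h | h
          · exact Finset.mem_powerset.1 (Fintype.mem_piFinset.1 hA s) h
          · exact Finset.mem_powerset.1 (Fintype.mem_piFinset.1 hC s) h
        exact (hP p h2).pos
    _ = _ := (h1 (fun A C z => avb L W b A C z)).symm

end

end Pool.Agent.GT.H1
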