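import Pool.Agent.GT.StmtsD

/-!
# Squad GT, row D_BAS: the base point near a 2-adic root
-/

set_option autoImplicit false

open Finset

namespace Pool.Agent.GT.D.H1

noncomputable section

theorem pow_dvd_right {e k : ℕ} {g a : ℤ} (hg : g ≠ 0) (ha : a ≠ 0)
    (h : (2 : ℤ) ^ (e + k) ∣ g * a) (h' : ¬ (2 : ℤ) ^ e ∣ g) : (2 : ℤ) ^ k ∣ a := by
  have h1 := ((padicValInt_dvd_iff (p := 2) (e + k) (g * a)).1 (by exact_mod_cast h)).resolve_left
    (mul_ne_zero hg ha)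
  rw [padicValInt.mul hg ha] at h1
  have h2 : ¬ e ≤ padicValInt 2 g := by
    intro h3
    apply h'
    have := (padicValInt_dvd_iff (p := 2) e g).2 (Or.inr h3)
    exact_mod_cast this
  have h4 := (padicValInt_dvd_iff (p := 2) k a).2 (Or.inr (by omega))
  exact_mod_cast h4

section
variable {ι : Type} [Fintype ι] [DecidableEq ι] (D : LD ι)

theorem la_cast (i : Fin 3) (u v : ℤ) (T : ℕ) : ((D.A i u v : ℤ) : ZMod T) =
    (D.ka i : ZMod T) * ∏ l, if D.bl l = i then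
      ((D.al l : ZMod T) * (u : ZMod T) + (D.be l : ZMod T) * (v : ZMod T)) ^ D.m l else 1 := by
  unfold LD.A LD.L
  push_cast
  refine congrArg _ (prod_congr rfl fun l _ => ?_)
  split_ifs
  · push_cast
    rfl
  · push_cast
    rfl

theorem la_congr (i : Fin 3) (x y x' y' : ℤ) (T : ℕ) :
    (T : ℤ) ∣ D.A i (x + T * x') (y + T * y') - D.A i x y := by
  rw [← ZMod.intCast_eq_intCast_iff_dvd_sub, la_cast, la_cast]
  push_cast
  rw [ZMod.natCast_self, zero_mul, zero_mul, add_zero, add_zero]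

theorem la_ne (i : Fin 3) (u v : ℤ) (h : ∀ l, D.bl l = i → D.L l u v ≠ 0) : D.A i u v ≠ 0 := by
  unfold LD.A
  apply mul_ne_zero (D.k0 i)
  rw [prod_ne_zero_iff]
  intro l _
  split_ifs with hl
  · exact pow_ne_zero _ (h l hl)
  · exact one_ne_zero

theorem la_sum (u v : ℤ) : D.A 0 u v + D.A 1 u v + D.A 2 u v = 0 := by
  have h := D.sum u v
  rw [Fin.sum_univ_three] at h
  exact h

theorem exists_form (i : Fin 3) : ∃ l, D.bl l = i ∧ 1 ≤ D.m l := by
  by_contra hcon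
  push Not at hcon
  have h1 := D.deg i
  have h2 : ∑ l, (if D.bl l = i then D.m l else 0) = 0 := by
    apply sum_eq_zero
    intro l _
    split_ifs with h
    · have := hcon l h
      omega
    · rfl
  have := D.N1
  omega

end

theorem d_bas : BasStmt := by
  intro ι _ _ D
  obtain ⟨l₀, hl₀, hm₀⟩ := exists_form D 2
  obtain ⟨l₁, hl₁, -⟩ := exists_form D 0
  have hne : l₁ ≠ l₀ := by
    rintro rfl
    rw [hl₁] at hl₀
    exact absurd hl₀ (by decide)
  obtain ⟨x, hx⟩ : ∃ x : ℤ, x = D.be l₀ := ⟨_, rfl⟩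
  obtain ⟨y, hy⟩ : ∃ y : ℤ, y = -D.al l₀ := ⟨_, rfl⟩
  have h0 : D.L l₀ x y = 0 := by
    unfold LD.L
    rw [hx, hy]
    ring
  have h1 : ∀ l, l ≠ l₀ → D.L l x y ≠ 0 := by
    intro l hl
    have := D.np l l₀ hl
    unfold LD.L
    rw [hx, hy]
    intro h
    apply this
    linarith
  have hΔ : 0 < D.al l₀ ^ 2 + D.be l₀ ^ 2 := by
    have h2 := D.np l₁ l₀ hne
    rcases eq_or_ne (D.al l₀) 0 with h3 | h3
    · rcases eq_or_ne (D.be l₀) 0 with h4 | h4
      · exact absurd (by rw [h3, h4]; ring) h2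
      · have := pow_pos (abs_pos.2 h4) 2
        rw [sq_abs] at this
        nlinarith [sq_nonneg (D.al l₀)]
    · have := pow_pos (abs_pos.2 h3) 2
      rw [sq_abs] at this
      nlinarith [sq_nonneg (D.be l₀)]
  have hA0 : D.A 0 x y ≠ 0 := la_ne D 0 x y fun l hl => h1 l fun h => by
    rw [h, hl₀] at hl
    exact absurd hl (by decide)
  -- the exponent
  obtain ⟨e, he⟩ : ∃ e : ℕ, (D.A 0 x y).natAbs + ∑ l, (D.L l x y).natAbs < 2 ^ e :=
    ⟨_, Nat.lt_two_pow_self⟩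
  obtain ⟨T, hT⟩ : ∃ T : ℕ, T = 2 ^ (e + 6) := ⟨_, rfl⟩
  have hTe : 2 ^ e ∣ T := by
    rw [hT]
    exact pow_dvd_pow 2 (by omega)
  have hTpos : 0 < T := by
    rw [hT]
    positivity
  have hsmall : ∀ z : ℤ, z ≠ 0 → z.natAbs < 2 ^ e → ¬ ((2 ^ e : ℕ) : ℤ) ∣ z := by
    intro z hz hlt hd
    have h2 := Int.natAbs_dvd_natAbs.2 hd
    rw [Int.natAbs_natCast] at h2
    have := Nat.le_of_dvd (Int.natAbs_pos.2 hz) h2
    omega
  obtain ⟨u, hu⟩ : ∃ u : ℤ, u = x + T * D.al l₀ := ⟨_, rfl⟩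
  obtain ⟨v, hv⟩ : ∃ v : ℤ, v = y + T * D.be l₀ := ⟨_, rfl⟩
  have hL0 : D.L l₀ u v = T * (D.al l₀ ^ 2 + D.be l₀ ^ 2) := by
    have : D.L l₀ u v = D.L l₀ x y + T * (D.al l₀ ^ 2 + D.be l₀ ^ 2) := by
      unfold LD.L
      rw [hu, hv]
      ring
    rw [this, h0, zero_add]
  have hL : ∀ l, D.L l u v ≠ 0 := by
    intro l
    by_cases hl : l = l₀
    · rw [hl, hL0]
      have : (0 : ℤ) < T := by exact_mod_cast hTpos
      positivity
    · intro hz
      have h3 : D.L l u v = D.L l x y + T * D.L l (D.al l₀) (D.be l₀) := by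
        unfold LD.L
        rw [hu, hv]
        ring
      rw [hz] at h3
      have h4 : ((2 ^ e : ℕ) : ℤ) ∣ D.L l x y := by
        have h5 : (T : ℤ) ∣ D.L l x y := ⟨-D.L l (D.al l₀) (D.be l₀), by linarith⟩
        exact (Int.natCast_dvd_natCast.2 hTe).trans h5
      refine hsmall _ (h1 l hl) ?_ h4
      have : (D.L l x y).natAbs ≤ ∑ l, (D.L l x y).natAbs :=
        single_le_sum (f := fun l => (D.L l x y).natAbs) (fun _ _ => Nat.zero_le _) (mem_univ l)
      omega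
  have hAne : ∀ i, D.A i u v ≠ 0 := fun i => la_ne D i u v fun l _ => hL l
  -- the gcd
  obtain ⟨g, hg⟩ : ∃ g : ℤ, g = (Int.gcd (D.A 0 u v) (D.A 1 u v) : ℤ) := ⟨_, rfl⟩
  have hg0 : g ≠ 0 := by
    rw [hg]
    intro h
    have h2 : Int.gcd (D.A 0 u v) (D.A 1 u v) = 0 := by exact_mod_cast h
    exact hAne 0 (Int.gcd_eq_zero_iff.1 h2).1
  obtain ⟨a₀, ha₀⟩ : g ∣ D.A 0 u v := by rw [hg]; exact Int.gcd_dvd_left _ _
  obtain ⟨a₁, ha₁⟩ : g ∣ D.A 1 u v := by rw [hg]; exact Int.gcd_dvd_right _ _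
  have ha₂ : D.A 2 u v = g * (-(a₀ + a₁)) := by
    have := la_sum D u v
    rw [ha₀, ha₁] at this
    linarith
  have hcop : IsCoprime a₀ a₁ := by
    have h2 := Int.gcd_eq_gcd_ab (D.A 0 u v) (D.A 1 u v)
    rw [← hg, ha₀, ha₁] at h2
    refine ⟨Int.gcdA (g * a₀) (g * a₁), Int.gcdB (g * a₀) (g * a₁), ?_⟩
    apply mul_left_cancel₀ hg0
    rw [mul_one]
    linarith
  have n0 : a₀ ≠ 0 := fun h => hAne 0 (by rw [ha₀, h, mul_zero])
  have n1 : a₁ ≠ 0 := fun h => hAne 1 (by rw [ha₁, h, mul_zero])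
  have n2 : -(a₀ + a₁) ≠ 0 := fun h => hAne 2 (by rw [ha₂, h, mul_zero])
  have c02 : IsCoprime a₀ (-(a₀ + a₁)) := by
    rw [IsCoprime.neg_right_iff]
    have := (IsCoprime.add_mul_left_right_iff (x := a₀) (y := a₁) (z := 1)).2 hcop
    rwa [mul_one, add_comm a₁ a₀] at this
  have c12 : IsCoprime a₁ (-(a₀ + a₁)) := by
    rw [IsCoprime.neg_right_iff]
    have := (IsCoprime.add_mul_left_right_iff (x := a₁) (y := a₀) (z := 1)).2 hcop.symm
    rwa [mul_one] at this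
  refine ⟨u, v, g, ![a₀, a₁, -(a₀ + a₁)], hL, hg0, ⟨?_, ?_, ?_, ?_⟩, ?_⟩
  · intro i
    fin_cases i
    · exact n0
    · exact n1
    · exact n2
  · change a₀ + a₁ + -(a₀ + a₁) = 0
    ring
  · intro i j hij
    fin_cases i <;> fin_cases j
    · exact absurd rfl hij
    · exact hcop
    · exact c02
    · exact hcop.symm
    · exact absurd rfl hij
    · exact c12
    · exact c02.symm
    · exact c12.symm
    · exact absurd rfl hij
  · change (64 : ℤ) ∣ -(a₀ + a₁)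
    have h2 : (2 : ℤ) ^ 6 ∣ -(a₀ + a₁) := by
      apply pow_dvd_right (e := e) hg0 n2
      · rw [← ha₂]
        have h3 : (T : ℤ) ∣ D.A 2 u v := by
          unfold LD.A
          apply Dvd.dvd.mul_left
          refine Dvd.dvd.trans ?_ (dvd_prod_of_mem _ (mem_univ l₀))
          rw [if_pos hl₀, hL0]
          exact (Dvd.intro _ rfl).trans (dvd_pow_self _ (by omega))
        rw [hT] at h3
        exact_mod_cast h3
      · intro hd
        have h3 : ((2 ^ e : ℕ) : ℤ) ∣ D.A 0 u v := by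
          rw [ha₀]
          apply Dvd.dvd.mul_right
          exact_mod_cast hd
        have h4 : ((2 ^ e : ℕ) : ℤ) ∣ D.A 0 u v - D.A 0 x y := by
          have := la_congr D 0 x y (D.al l₀) (D.be l₀) T
          rw [← hu, ← hv] at this
          exact (Int.natCast_dvd_natCast.2 hTe).trans this
        have h5 : ((2 ^ e : ℕ) : ℤ) ∣ D.A 0 x y := by
          have := dvd_sub h3 h4
          rwa [sub_sub_cancel] at this
        refine hsmall _ hA0 ?_ h5
        omega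
    exact (by norm_num : (64 : ℤ) = 2 ^ 6) ▸ h2
  · intro i
    fin_cases i
    · exact ha₀
    · exact ha₁
    · exact ha₂

end

end Pool.Agent.GT.D.H1
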