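import Pool.Agent.GT.StmtsD
import Pool.Agent.Helper93_NJ.NRM

/-!
# Squad GT, row D_SEL: only the points of order 2
-/

set_option autoImplicit false

open Finset

namespace Pool.Agent.GT.D.H1

open Pool.Agent.NJ Pool.Agent.NJ.H93

noncomputable section

/-- a squarefree number which times a square is a square is `1` -/
theorem sqf_one {f A : ℤ} (hf : Squarefree f) (hA : A ≠ 0) (h : IsSquare (f * A ^ 2)) : f = 1 := by
  obtain ⟨c, hc⟩ := h
  have h1 : A ^ 2 ∣ c ^ 2 := ⟨f, by rw [sq c, ← hc]; ring⟩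
  have h2 : A ∣ c := (Int.pow_dvd_pow_iff two_ne_zero).1 h1
  obtain ⟨d, rfl⟩ := h2
  have h3 : f = d * d := by
    have h4 : f * A ^ 2 = (d * d) * A ^ 2 := by rw [hc]; ring
    exact mul_right_cancel₀ (pow_ne_zero 2 hA) h4
  have h5 : IsUnit d := hf d ⟨1, by rw [h3]; ring⟩
  rw [h3]
  rcases Int.isUnit_iff.1 h5 with h | h <;> rw [h] <;> norm_num

theorem vl_sqf {r : ℕ} (hr : r.Prime) {f A : ℤ} (hf : f ≠ 0) (hA : A ≠ 0) (h : ¬ (r : ℤ) ∣ f) :
    vl r (f * A ^ 2) = 0 := by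
  haveI : Fact r.Prime := ⟨hr⟩
  unfold vl
  rw [padicValInt.mul hf (pow_ne_zero 2 hA), sq, padicValInt.mul hA hA, val_ndvd h]
  push_cast
  rw [zero_add]
  exact CharTwo.add_self_eq_zero _

section
variable {ι : Type} [Fintype ι] [DecidableEq ι]

theorem nd_kb {a : Fin 3 → ℤ} {s : ℤ} {r : ℕ} {bl : ι → Fin 3} {m st : ι → ℕ}
    {p : ι → ℕ} {h : ZMod 2} (hPk : Pk a s r bl m st p h) (i : Fin 3) :
    (r : ℤ) ∣ Kn s r st p * Bn a bl m p i ∧ ¬ (r : ℤ) ^ 2 ∣ Kn s r st p * Bn a bl m p i := by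
  have hr := hPk.cho.pr
  have hrp : Prime (r : ℤ) := Nat.prime_iff_prime_int.1 hr
  have hrl : ∀ (l : ι) (n : ℕ), ¬ (r : ℤ) ∣ (p l : ℤ) ^ n := by
    intro l n hd
    have h1 : r ∣ p l := by
      have := hrp.dvd_of_dvd_pow hd
      exact_mod_cast this
    exact hPk.new.nr l ((Nat.prime_dvd_prime_iff_eq hr (hPk.new.pr l)).1 h1).symm
  have h2 : ¬ (r : ℤ) ∣ 2 := by
    intro hd
    have h1 : r ∣ 2 := by exact_mod_cast hd
    exact hPk.cho.r2 ((Nat.prime_dvd_prime_iff_eq hr Nat.prime_two).1 h1)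
  have h3 : ¬ (r : ℤ) ∣ s := by
    intro hd
    have h1 : (r : ℤ) ∣ 1 := by
      rcases hPk.cho.ss with h | h
      · rwa [h] at hd
      · rw [h, Int.dvd_neg] at hd
        exact hd
    exact hrp.not_unit (isUnit_of_dvd_one h1)
  have h4 : ¬ (r : ℤ) ∣ ∏ l, (p l : ℤ) ^ st l := by
    intro hd
    obtain ⟨l, -, hl⟩ := (Prime.dvd_finset_prod_iff hrp _).1 hd
    exact hrl l _ hl
  have h5 : ¬ (r : ℤ) ∣ Bn a bl m p i := by
    intro hd
    unfold Bn at hd
    rcases hrp.dvd_or_dvd hd with h | h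
    · exact hPk.cho.nd i h
    · obtain ⟨l, -, hl⟩ := (Prime.dvd_finset_prod_iff hrp _).1 h
      split_ifs at hl
      · exact hrl l _ hl
      · exact hrp.not_unit (isUnit_of_dvd_one hl)
  have hr0 : (r : ℤ) ≠ 0 := by exact_mod_cast hr.ne_zero
  have h6 : Kn s r st p * Bn a bl m p i =
      (r : ℤ) * (2 * s * (∏ l, (p l : ℤ) ^ st l) * Bn a bl m p i) := by
    unfold Kn
    ring
  refine ⟨⟨_, h6⟩, fun hd => ?_⟩
  rw [h6, sq] at hd
  have h7 := (mul_dvd_mul_iff_left hr0).1 hd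
  rcases hrp.dvd_or_dvd h7 with h | h
  · rcases hrp.dvd_or_dvd h with h | h
    · rcases hrp.dvd_or_dvd h with h | h
      · exact h2 h
      · exact h3 h
    · exact h4 h
  · exact h5 h

theorem d_sel_aux (hCor : CorStmt ι) (hDff : DffStmt ι) (hCrit : CRITStmt) (hTrn : TRNStmt) :
    SelStmt ι := by
  intro a s r bl m st p h hPk
  obtain ⟨-, -, d3, d4⟩ := hDff a s r bl m st p h hPk
  have hr := hPk.cho.pr
  haveI : Fact r.Prime := ⟨hr⟩
  have hkb := nd_kb hPk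
  have hsum := hPk.new.sum
  obtain ⟨kb, hkbdef⟩ : ∃ kb : Fin 3 → ℤ, kb = fun i => Kn s r st p * Bn a bl m p i := ⟨_, rfl⟩
  have e0 : ∀ i, kb i = Kn s r st p * Bn a bl m p i := fun i => by rw [hkbdef]
  have hsum' : kb 0 + kb 1 + kb 2 = 0 := by
    rw [e0, e0, e0, ← mul_add, ← mul_add, hsum, mul_zero]
  have hv : ∀ i, padicValInt r (kb i) = 1 := fun i => by
    rw [e0]
    exact val_eq (n := 1) (by rw [pow_one]; exact (hkb i).1) (hkb i).2
  have hne : ∀ i, kb i ≠ 0 := fun i => by rw [e0]; exact (d3 i).2.2.1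
  obtain ⟨e₂, he₂⟩ : ∃ e₂ : ℤ, e₂ = -(Kn s r st p * Bn a bl m p 2) := ⟨_, rfl⟩
  obtain ⟨e₃, he₃⟩ : ∃ e₃ : ℤ, e₃ = Kn s r st p * Bn a bl m p 1 := ⟨_, rfl⟩
  rw [← he₂, ← he₃]
  have q2 : e₂ = -kb 2 := by rw [he₂, e0]
  have q3 : e₃ = kb 1 := by rw [he₃, e0]
  have q23 : e₂ - e₃ = kb 0 := by rw [q2, q3]; linarith
  have n2 : e₂ ≠ 0 := by rw [q2]; exact neg_ne_zero.2 (hne 2)
  have n3 : e₃ ≠ 0 := by rw [q3]; exact hne 1
  have n23 : e₂ - e₃ ≠ 0 := by rw [q23]; exact hne 0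
  have n32 : e₃ - e₂ ≠ 0 := fun h => n23 (by linarith)
  have vneg : ∀ z : ℤ, padicValInt r (-z) = padicValInt r z := fun z => by
    unfold padicValInt
    rw [Int.natAbs_neg]
  have v2 : padicValInt r e₂ = 1 := by rw [q2, vneg, hv]
  have v3 : padicValInt r e₃ = 1 := by rw [q3, hv]
  have v23 : padicValInt r (e₂ - e₃) = 1 := by rw [q23, hv]
  have v32 : padicValInt r (e₃ - e₂) = 1 := by
    rw [show e₃ - e₂ = -(e₂ - e₃) by ring, vneg, v23]
  apply hCrit e₂ e₃ n2 n3 (sub_ne_zero.1 n23)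
  · right
    constructor
    · rw [he₃]
      omega
    · rw [he₂, dvd_neg]
      apply Dvd.dvd.mul_left
      unfold Bn
      apply Dvd.dvd.mul_right
      exact (by norm_num : (4 : ℤ) ∣ 64).trans hPk.old.two
  · -- the classes prime to `r`
    have hyp : ∀ f₁ f₂, Cls e₂ e₃ f₁ f₂ → ¬ (r : ℤ) ∣ f₁ → ¬ (r : ℤ) ∣ f₂ → f₁ = 1 ∧ f₂ = 1 := by
      rintro f₁ f₂ ⟨x, w, y, A, B, hp⟩ g1 g2
      have X0 : Xc (re a s r bl m st p) x w 0 = x := by
        unfold Xc re rt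
        simp
      have X1 : Xc (re a s r bl m st p) x w 1 = x - e₂ * w ^ 2 := by
        unfold Xc re rt
        rw [he₂]
        simp
      have X2 : Xc (re a s r bl m st p) x w 2 = x - e₃ * w ^ 2 := by
        unfold Xc re rt
        rw [he₃]
        simp
      have hprod : x * (x - e₂ * w ^ 2) * (x - e₃ * w ^ 2) ≠ 0 := by
        rw [← hp.eq]
        exact pow_ne_zero 2 hp.w0
      have m0 : x ≠ 0 := fun h0 => hprod (by rw [h0]; ring)
      have m1 : x - e₂ * w ^ 2 ≠ 0 := fun h0 => hprod (by rw [h0]; ring)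
      have m2 : x - e₃ * w ^ 2 ≠ 0 := fun h0 => hprod (by rw [h0]; ring)
      have hA : A ≠ 0 := fun h0 => m0 (by rw [hp.h1, h0]; ring)
      have hB : B ≠ 0 := fun h0 => m1 (by rw [hp.h2, h0]; ring)
      have hTri : Tri (re a s r bl m st p) x w := by
        refine ⟨hp.s0, hp.cop, ?_, ?_⟩
        · intro i
          fin_cases i
          · change Xc (re a s r bl m st p) x w 0 ≠ 0
            rw [X0]
            exact m0
          · change Xc (re a s r bl m st p) x w 1 ≠ 0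
            rw [X1]
            exact m1
          · change Xc (re a s r bl m st p) x w 2 ≠ 0
            rw [X2]
            exact m2
        · rw [X0, X1, X2, ← hp.eq]
          exact ⟨y, sq y⟩
      have z0 : vl r x = 0 := by
        rw [hp.h1]
        exact vl_sqf hr hp.sq1.ne_zero hA g1
      have z1 : vl r (x - e₂ * w ^ 2) = 0 := by
        rw [hp.h2]
        exact vl_sqf hr hp.sq2.ne_zero hB g2
      have z2 : vl r (x - e₃ * w ^ 2) = 0 := by
        have h1 : padicValInt r (y ^ 2) =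
            padicValInt r x + padicValInt r (x - e₂ * w ^ 2) + padicValInt r (x - e₃ * w ^ 2) := by
          rw [hp.eq, padicValInt.mul (mul_ne_zero m0 m1) m2, padicValInt.mul m0 m1]
        rw [sq, padicValInt.mul hp.w0 hp.w0] at h1
        have h2 := congrArg (fun n : ℕ => (n : ZMod 2)) h1
        simp only [Nat.cast_add] at h2
        rw [CharTwo.add_self_eq_zero] at h2
        unfold vl at z0 z1 ⊢
        rw [z0, z1, zero_add, zero_add] at h2
        exact h2.symm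
      have hsq := hCor a s r bl m st p h hPk x w hTri (by
        intro i
        fin_cases i
        · change vl r (Xc (re a s r bl m st p) x w 0) = 0
          rw [X0]
          exact z0
        · change vl r (Xc (re a s r bl m st p) x w 1) = 0
          rw [X1]
          exact z1
        · change vl r (Xc (re a s r bl m st p) x w 2) = 0
          rw [X2]
          exact z2)
      have s0 := hsq 0
      have s1 := hsq 1
      rw [X0, hp.h1] at s0
      rw [X1, hp.h2] at s1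
      exact ⟨sqf_one hp.sq1 hA s0, sqf_one hp.sq2 hB s1⟩
    intro d₁ d₂ hcl
    obtain ⟨s1, s2⟩ := cls_sqf hcl
    obtain ⟨⟨f₁, f₂, hf, r1, r2⟩, ⟨g₁, g₂, hg, r3, r4⟩, ⟨k₁, k₂, hk, r5, r6⟩⟩ :=
      hTrn e₂ e₃ d₁ d₂ n2 n3 (sub_ne_zero.1 n23) hcl
    have w1 : padicValInt r (e₂ * e₃) = 2 := by rw [padicValInt.mul n2 n3, v2, v3]
    have w2 : padicValInt r (-e₂) = 1 := by rw [vneg, v2]
    have w3 : padicValInt r (e₂ * (e₂ - e₃)) = 2 := by rw [padicValInt.mul n2 n23, v2, v23]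
    by_cases c1 : (r : ℤ) ∣ d₁ <;> by_cases c2 : (r : ℤ) ∣ d₂
    · have a1 := val_sqf s1 c1
      have a2 := val_sqf s2 c2
      obtain ⟨t1, t2⟩ := cls_sqf hk
      have b1 := val_translate (p := r) s1.ne_zero t1 n3 r5 ⟨1, by rw [a1, v3]⟩
      have b2 := val_translate (p := r) s2.ne_zero t2 n32 r6 ⟨1, by rw [a2, v32]⟩
      obtain ⟨rfl, rfl⟩ := hyp _ _ hk b1 b2
      rw [mul_one] at r5 r6
      exact Or.inr (Or.inr (Or.inr ⟨r5, r6⟩))
    · have a1 := val_sqf s1 c1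
      have a2 := val_ndvd (p := r) c2
      obtain ⟨t1, t2⟩ := cls_sqf hg
      have b1 := val_translate (p := r) s1.ne_zero t1 n2 r3 ⟨1, by rw [a1, v2]⟩
      have b2 := val_translate (p := r) s2.ne_zero t2 (mul_ne_zero n2 n23) r4
        ⟨1, by rw [a2, w3]⟩
      obtain ⟨rfl, rfl⟩ := hyp _ _ hg b1 b2
      rw [mul_one] at r3 r4
      exact Or.inr (Or.inr (Or.inl ⟨r3, r4⟩))
    · have a1 := val_ndvd (p := r) c1
      have a2 := val_sqf s2 c2
      obtain ⟨t1, t2⟩ := cls_sqf hf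
      have b1 := val_translate (p := r) s1.ne_zero t1 (mul_ne_zero n2 n3) r1
        ⟨1, by rw [a1, w1]⟩
      have b2 := val_translate (p := r) s2.ne_zero t2 (neg_ne_zero.2 n2) r2
        ⟨1, by rw [a2, w2]⟩
      obtain ⟨rfl, rfl⟩ := hyp _ _ hf b1 b2
      rw [mul_one] at r1 r2
      exact Or.inr (Or.inl ⟨r1, r2⟩)
    · obtain ⟨rfl, rfl⟩ := hyp _ _ hcl c1 c2
      exact Or.inl ⟨IsSquare.one, IsSquare.one⟩

end

theorem d_sel (ι : Type) [Fintype ι] [DecidableEq ι] (hCor : CorStmt ι) (hDff : DffStmt ι)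
    (hCrit : CRITStmt) (hTrn : TRNStmt) : SelStmt ι := d_sel_aux hCor hDff hCrit hTrn

end

end Pool.Agent.GT.D.H1
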